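import Pool.Agent.Helper82_NIB.Stmts

/-!
# NIB: module CPHF, the second order correction
-/

set_option autoImplicit false
set_option linter.unusedSectionVars false

open Finset Matrix

namespace Pool.Agent.NIB.H10

lemma grn_mulVec_le {W : Type} [Fintype W] [DecidableEq W] {B : Matrix W W ℝ} (hB : IsSub B)
    (ta : ℕ) {f : W → ℝ} {M : ℝ} (hM : 0 ≤ M) (hf : ∀ a, |f a| ≤ M) (a : W) :
    |(grn B ta *ᵥ f) a| ≤ ta / 2 * M := by
  have h1 : (grn B ta *ᵥ f) a = 1 / 2 * ∑ j ∈ range ta, (laz B ^ j *ᵥ f) a := by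
    rw [grn, Matrix.smul_mulVec, Pi.smul_apply, smul_eq_mul, Matrix.sum_mulVec, Finset.sum_apply]
  rw [h1, abs_mul, abs_of_pos (by norm_num : (0 : ℝ) < 1 / 2)]
  have h2 : |∑ j ∈ range ta, (laz B ^ j *ᵥ f) a| ≤ ∑ j ∈ range ta, M :=
    (Finset.abs_sum_le_sum_abs _ _).trans (Finset.sum_le_sum fun j _ =>
      abs_mulVec_le (laz_pow_nonneg hB.nonneg j) (laz_pow_row hB.nonneg hB.row j) hM hf a)
  rw [Finset.sum_const, Finset.card_range, nsmul_eq_mul] at h2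
  linarith

theorem cphf (hCROW : CrowStmt) (hCTH : CthStmt) : CphfStmt := by
  intro V _ _ D hD
  obtain ⟨-, -, -, hc4, hsub, hb1, hc7⟩ := hCROW V D hD
  obtain ⟨-, hth, -⟩ := hCTH V D hD
  have hth0 := hD.th0
  have hPhi0 := hD.Phi0
  have hM : 0 ≤ 6 * D.th * D.Phi := by positivity
  have hThp : ∀ w, |D.Thp w| ≤ 6 * D.th * D.Phi := by
    intro w
    unfold Cd.Thp
    split_ifs
    · exact hth w
    · simpa using hM
  have hone : 0 < 1 + D.b1 := by linarith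
  have hinv : 0 ≤ 1 / (1 + D.b1) := by positivity
  have hinv1 : 1 / (1 + D.b1) ≤ 1 := by
    rw [div_le_one hone]
    linarith
  have hphF : ∀ w, |D.phF w| ≤ 3 * D.ta * D.th * D.Phi := by
    intro w
    have h1 := grn_mulVec_le hsub D.ta hM hThp w
    unfold Cd.phF
    rw [abs_mul, abs_neg, abs_of_nonneg hinv]
    calc 1 / (1 + D.b1) * |(grn D.Ab D.ta *ᵥ D.Thp) w|
        ≤ 1 * |(grn D.Ab D.ta *ᵥ D.Thp) w| :=
          mul_le_mul_of_nonneg_right hinv1 (abs_nonneg _)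
      _ ≤ 3 * D.ta * D.th * D.Phi := by linarith
  refine ⟨hphF, fun w hw => ?_⟩
  refine ⟨-((1 + D.b1) * (1 - ∑ w', D.Ab w w') * D.phF w), ?_, ?_⟩
  · rw [abs_neg, abs_mul]
    have h2 : 0 ≤ (1 + D.b1) * (1 - ∑ w', D.Ab w w') :=
      mul_nonneg hone.le (by linarith [hsub.row w])
    rw [abs_of_nonneg h2]
    have h3 : 0 ≤ 2 * D.r + 2 * D.b1 := h2.trans (hc7 w hw)
    exact mul_le_mul (hc7 w hw) (hphF w) (abs_nonneg _) h3
  · have h1 : ∑ w', mat D.x w w' * Gf D.th D.sg w' * (D.phF w - D.phF w') =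
        (1 + D.b1) * ((∑ w', D.Ab w w') * D.phF w - (D.Ab *ᵥ D.phF) w) := by
      have h2 : (D.Ab *ᵥ D.phF) w = ∑ w', D.Ab w w' * D.phF w' := rfl
      rw [h2, Finset.sum_mul, ← Finset.sum_sub_distrib, Finset.mul_sum]
      refine Finset.sum_congr rfl fun w' _ => ?_
      rw [hc4 w w' hw]
      ring
    have h3 : ((1 - D.Ab) *ᵥ D.phF) w =
        -(1 / (1 + D.b1)) * (D.Thp w - (laz D.Ab ^ D.ta *ᵥ D.Thp) w) := by
      have h4 : D.phF = (-(1 / (1 + D.b1))) • (grn D.Ab D.ta *ᵥ D.Thp) := by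
        ext z
        simp only [Cd.phF, Pi.smul_apply, smul_eq_mul]
      rw [h4, Matrix.mulVec_smul, Matrix.mulVec_mulVec, one_sub_mul_grn, Matrix.sub_mulVec,
        Matrix.one_mulVec]
      simp only [Pi.smul_apply, Pi.sub_apply, smul_eq_mul]
    have h5 : ((1 - D.Ab) *ᵥ D.phF) w = D.phF w - (D.Ab *ᵥ D.phF) w := by
      rw [Matrix.sub_mulVec, Matrix.one_mulVec, Pi.sub_apply]
    have h6 : D.Thp w = D.Th w := by
      unfold Cd.Thp
      rw [if_pos hw]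
    have h7 : (1 + D.b1) * (D.phF w - (D.Ab *ᵥ D.phF) w) =
        -D.Th w + (laz D.Ab ^ D.ta *ᵥ D.Thp) w := by
      rw [← h5, h3, h6]
      field_simp
      ring
    rw [h1, ← h7]
    ring

end Pool.Agent.NIB.H10
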