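import Pool.Agent.Helper82_NIB.Stmts

/-!
# NIB: module SO6, the event (O6)
-/

set_option autoImplicit false
set_option linter.unusedSectionVars false

open Finset Matrix

namespace Pool.Agent.NIB.H10

section

variable {V C : Type} [Fintype V] [DecidableEq V] [Fintype C] [DecidableEq C]

/-- Weight of the arc `a` at the node `w`. -/
def aw (x : V → V → ℝ) (w : V × Bool) (a : V × V) : ℝ :=
  if (if w.2 then a.1 = w.1 else a.2 = w.1) then x a.1 a.2 else 0

lemma sum_aw (x y : V → V → ℝ) (w : V × Bool) :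
    ∑ w', mat x w w' * mat y w w' = ∑ a : V × V, aw x w a * y a.1 a.2 := by
  rcases w with ⟨w, _ | _⟩
  · rw [sum_node]
    simp only [aw, mat_ft, mat_ff, Bool.false_eq_true, if_false, mul_zero, Finset.sum_const_zero,
      add_zero]
    rw [Fintype.sum_prod_type]
    refine Finset.sum_congr rfl fun u _ => ?_
    simp
  · rw [sum_node]
    simp only [aw, mat_tf, mat_tt, if_true, mul_zero, Finset.sum_const_zero, zero_add]
    rw [Fintype.sum_prod_type, Finset.sum_comm]
    refine Finset.sum_congr rfl fun u _ => ?_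
    simp

lemma sum_aw_one (x : V → V → ℝ) (w : V × Bool) : ∑ a : V × V, aw x w a = rs x w := by
  rcases w with ⟨w, _ | _⟩
  · rw [rs_inn]
    simp only [aw, Bool.false_eq_true, if_false]
    rw [Fintype.sum_prod_type]
    refine Finset.sum_congr rfl fun u _ => ?_
    simp
  · rw [rs_out]
    simp only [aw, if_true]
    rw [Fintype.sum_prod_type, Finset.sum_comm]
    refine Finset.sum_congr rfl fun u _ => ?_
    simp

lemma aw_nonneg {x : V → V → ℝ} (h : ∀ u v, 0 ≤ x u v) (w : V × Bool) (a : V × V) :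
    0 ≤ aw x w a := by
  unfold aw
  split_ifs
  all_goals first | exact h _ _ | exact le_rfl

lemma aw_le {x : V → V → ℝ} {d : ℝ} (hd : 0 ≤ d) (h : ∀ u v, x u v ≤ d) (w : V × Bool)
    (a : V × V) : aw x w a ≤ d := by
  unfold aw
  split_ifs
  all_goals first | exact h _ _ | exact hd

/-- The function of one coordinate. -/
def fi (t : V × V → ℝ) (c : C) : Crd V C → Val C → ℝ
  | .inl a, some (c', _) => if c' = c then 0 else t a
  | _, _ => 0

lemma fi_nonneg {t : V × V → ℝ} (h : ∀ a, 0 ≤ t a) (c : C) (i : Crd V C) (s : Val C) :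
    0 ≤ fi t c i s := by
  rcases i with a | p
  · rcases s with _ | ⟨c', bb⟩
    · simp [fi]
    · simp only [fi]
      split_ifs
      · exact le_rfl
      · exact h a
  · simp [fi]

lemma fi_le {t : V × V → ℝ} {B : ℝ} (hB : 0 ≤ B) (h : ∀ a, t a ≤ B) (c : C) (i : Crd V C)
    (s : Val C) : fi t c i s ≤ B := by
  rcases i with a | p
  · rcases s with _ | ⟨c', bb⟩
    · simpa [fi] using hB
    · simp only [fi]
      split_ifs
      · exact hB
      · exact h a
  · simpa [fi] using hB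

lemma fi_sq (t : V × V → ℝ) (c : C) (i : Crd V C) (s : Val C) :
    fi t c i s ^ 2 = fi (fun a => t a ^ 2) c i s := by
  rcases i with a | p
  · rcases s with _ | ⟨c', bb⟩
    · simp [fi]
    · simp only [fi]
      split_ifs
      · norm_num
      · rfl
  · simp [fi]

lemma sum_fi (b : Bm V C) (t : V × V → ℝ) (c : C) :
    ∑ i, ∑ s, b.wt i s * fi t c i s = ∑ a, t a * ∑ c' ∈ univ.erase c, b.q c' a := by
  rw [Fintype.sum_sum_type]
  have h2 : ∑ p : C × V, ∑ s, b.wt (.inr p) s * fi t c (.inr p) s = 0 := by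
    refine Finset.sum_eq_zero fun p _ => Finset.sum_eq_zero fun s _ => ?_
    simp [fi]
  rw [h2, add_zero]
  refine Finset.sum_congr rfl fun a _ => ?_
  rw [Fintype.sum_option, Fintype.sum_prod_type, Finset.mul_sum,
    ← Finset.sum_erase_add (s := univ) (a := c) _ (Finset.mem_univ c)]
  have h3 : b.wt (.inl a) none * fi t c (.inl a) none = 0 := by simp [fi]
  have h4 : ∑ bb : Bool, b.wt (.inl a) (some (c, bb)) * fi t c (.inl a) (some (c, bb)) = 0 := by
    simp [fi]
  rw [h3, h4, zero_add, add_zero]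
  refine Finset.sum_congr rfl fun c' hc' => ?_
  have hne : c' ≠ c := Finset.ne_of_mem_erase hc'
  simp only [Fintype.sum_bool, fi, Bm.wt, hne, if_false]
  ring

lemma sum_fi_ub (b : Bm V C) (x : V → V → ℝ) (w : V × Bool) (c : C) (ω : Crd V C → Val C) :
    ∑ i, fi (aw x w) c i (ω i) = ∑ w', mat x w w' * mat (b.ub c ω) w w' := by
  rw [sum_aw, Fintype.sum_sum_type]
  have h2 : ∑ p : C × V, fi (aw x w) c (.inr p) (ω (.inr p)) = 0 := by
    refine Finset.sum_eq_zero fun p _ => ?_
    simp [fi]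
  rw [h2, add_zero]
  refine Finset.sum_congr rfl fun a _ => ?_
  have h5 : (∃ c', c' ≠ c ∧ colOf (ω (.inl a)) c') → b.ub c ω a.1 a.2 = 1 := by
    intro h
    simp only [Bm.ub]
    rw [if_pos h]
  have h5' : (¬ ∃ c', c' ≠ c ∧ colOf (ω (.inl a)) c') → b.ub c ω a.1 a.2 = 0 := by
    intro h
    simp only [Bm.ub]
    rw [if_neg h]
  rcases hs : ω (.inl a) with _ | ⟨c', bb⟩
  · rw [h5' ?_]
    · simp [fi]
    · rw [hs]
      simp [colOf]
  · by_cases h : c' = c
    · subst h
      rw [h5' ?_]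
      · simp [fi]
      · rw [hs]
        rintro ⟨c'', h1, b', hb'⟩
        simp only [Option.some.injEq, Prod.mk.injEq] at hb'
        exact h1 hb'.1.symm
    · rw [h5 ?_]
      · simp [fi, h]
      · rw [hs]
        exact ⟨c', h, bb, rfl⟩

end

theorem so6 (hIND : IndStmt) (hSWT : SwtStmt) : So6Stmt := by
  intro V C _ _ _ _ b de Lam h lam kap hb hde hLam hlam c w
  obtain ⟨hw, hq0, -, -, -, -, -, -⟩ := hSWT V C b de Lam h kap hb
  have hth := hb.th0
  have ht0 : ∀ a, 0 ≤ aw (b.x c) w a := aw_nonneg (hb.x0 c) w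
  have ht1 : ∀ a, aw (b.x c) w a ≤ de := aw_le hde (hb.xle c) w
  have hqs : ∀ a : V × V, ∑ c' ∈ univ.erase c, b.q c' a ≤ 8 * b.th * Lam := by
    intro a
    have h1 : ∑ c' ∈ univ.erase c, b.q c' a ≤ ∑ c', b.q c' a :=
      Finset.sum_le_sum_of_subset_of_nonneg (Finset.erase_subset _ _) fun c' _ _ => hq0 c' a
    have h2 : ∑ c', b.q c' a = 8 * b.th * ∑ c', b.x c' a.1 a.2 := by
      rw [Finset.mul_sum]
      rfl
    have h3 := hb.lam a.1 a.2
    have h4 : 8 * b.th * ∑ c', b.x c' a.1 a.2 ≤ 8 * b.th * Lam :=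
      mul_le_mul_of_nonneg_left h3 (by positivity)
    linarith
  have hsum1 : ∑ a, aw (b.x c) w a ≤ 1 := by
    rw [sum_aw_one]
    exact hb.row c w
  have hthLam : 0 ≤ 8 * b.th * Lam := by positivity
  have hmean : ∑ i, ∑ s, b.wt i s * fi (aw (b.x c) w) c i s ≤ 8 * b.th * Lam := by
    rw [sum_fi]
    calc ∑ a, aw (b.x c) w a * ∑ c' ∈ univ.erase c, b.q c' a
        ≤ ∑ a, aw (b.x c) w a * (8 * b.th * Lam) :=
          Finset.sum_le_sum fun a _ => mul_le_mul_of_nonneg_left (hqs a) (ht0 a)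
      _ = (∑ a, aw (b.x c) w a) * (8 * b.th * Lam) := by rw [Finset.sum_mul]
      _ ≤ 1 * (8 * b.th * Lam) := mul_le_mul_of_nonneg_right hsum1 hthLam
      _ = 8 * b.th * Lam := one_mul _
  have hvar : ∑ i, ∑ s, b.wt i s * fi (aw (b.x c) w) c i s ^ 2 ≤ 8 * de * b.th * Lam := by
    simp only [fi_sq]
    rw [sum_fi]
    calc ∑ a, aw (b.x c) w a ^ 2 * ∑ c' ∈ univ.erase c, b.q c' a
        ≤ ∑ a, (aw (b.x c) w a * de) * (8 * b.th * Lam) := by
          refine Finset.sum_le_sum fun a _ => ?_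
          refine mul_le_mul ?_ (hqs a) (Finset.sum_nonneg fun c' _ => hq0 c' a)
            (mul_nonneg (ht0 a) hde)
          rw [sq]
          exact mul_le_mul_of_nonneg_left (ht1 a) (ht0 a)
      _ = (∑ a, aw (b.x c) w a) * (8 * de * b.th * Lam) := by
          rw [Finset.sum_mul]
          exact Finset.sum_congr rfl fun a _ => by ring
      _ ≤ 1 * (8 * de * b.th * Lam) := mul_le_mul_of_nonneg_right hsum1 (by positivity)
      _ = 8 * de * b.th * Lam := one_mul _
  have key := hIND (Crd V C) (Val C) b.wt (fi (aw (b.x c) w) c) (8 * de * b.th * Lam) de lam hw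
    (fi_nonneg ht0 c) (fi_le hde ht1 c) hde hlam hvar
  refine (Pr_mono hw ?_).trans key
  intro ω hω
  simp only [Set.mem_ofPred_eq] at hω ⊢
  rw [← sum_fi_ub] at hω
  have hsq : 2 * √(lam * (8 * de * b.th * Lam)) ≤ 6 * √(lam * de * b.th * Lam) := by
    have h1 : lam * (8 * de * b.th * Lam) = 8 * (lam * de * b.th * Lam) := by ring
    have h2 : 0 ≤ lam * de * b.th * Lam := by positivity
    rw [h1, Real.sqrt_mul (by norm_num)]
    have h3 : √8 ≤ 3 := by
      rw [Real.sqrt_le_left (by norm_num)]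
      norm_num
    have h4 := Real.sqrt_nonneg (lam * de * b.th * Lam)
    nlinarith
  have habs := le_abs_self (∑ i, fi (aw (b.x c) w) c i (ω i) -
    ∑ i, ∑ s, b.wt i s * fi (aw (b.x c) w) c i s)
  linarith

end Pool.Agent.NIB.H10
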